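import Pool.Agent.Helper17.SQ.PBWI2

/-!
# Project SQ (MP_bb32d1_al), packet PBWI: the PBW monomials are linearly independent
-/

set_option autoImplicit false
set_option linter.unusedSectionVars false

namespace Pool.Agent.Helper17.SQ

open Pool.Agent.Helper19.SQ
open scoped TensorProduct

variable {N l : ℕ} {q : ℂ}

theorem sing_zgen [NeZero l] (lam : Fin (N + 1) → ZMod l) : Sing q lam (zgen q lam) := by
  refine ⟨fun i ↦ ?_, fun j ↦ ?_⟩
  · change (Submodule.Quotient.mk (gE N l q i • (1 : A N l q)) : A N l q ⧸ Jl q lam) = 0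
    rw [Submodule.Quotient.mk_eq_zero, smul_eq_mul, mul_one]
    exact Submodule.subset_span (Or.inl ⟨i, rfl⟩)
  · change (Submodule.Quotient.mk (gK N l q j • (1 : A N l q)) : A N l q ⧸ Jl q lam) =
      qz q (lam j) • (Submodule.Quotient.mk (1 : A N l q) : A N l q ⧸ Jl q lam)
    have h1 : qz q (lam j) • (Submodule.Quotient.mk (1 : A N l q) : A N l q ⧸ Jl q lam) =
        Submodule.Quotient.mk (algebraMap ℂ (A N l q) (qz q (lam j))) := by
      rw [Algebra.algebraMap_eq_smul_one]; rfl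
    rw [h1, Submodule.Quotient.eq, smul_eq_mul, mul_one]
    exact Submodule.subset_span (Or.inr ⟨j, rfl⟩)

theorem exists_dual {ι M : Type} [AddCommGroup M] [Module ℂ M] [DecidableEq ι] {f : ι → M}
    (hf : LinearIndependent ℂ f) (i₀ : ι) :
    ∃ φ : M →ₗ[ℂ] ℂ, ∀ i, φ (f i) = if i = i₀ then 1 else 0 := by
  obtain ⟨φ, hφ⟩ := LinearMap.exists_extend ((Finsupp.lapply i₀ : (ι →₀ ℂ) →ₗ[ℂ] ℂ) ∘ₗ hf.repr)
  refine ⟨φ, fun i ↦ ?_⟩
  have h1 := LinearMap.congr_fun hφ ⟨f i, Submodule.subset_span ⟨i, rfl⟩⟩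
  change φ (f i) = _ at h1
  rw [h1, LinearMap.comp_apply, hf.repr_eq_single i _ rfl]
  simp [Finsupp.single_apply]

section tensor

variable {M1 M : Type} [AddCommGroup M1] [Module ℂ M1] [Module (A N l q) M1]
  [IsScalarTower ℂ (A N l q) M1] [AddCommGroup M] [Module ℂ M] [Module (A N l q) M]
  [IsScalarTower ℂ (A N l q) M] {ρ : A N l q →ₐ[ℂ] Module.End ℂ (M1 ⊗[ℂ] M)} {v : M}

theorem rho_E (hv : ∀ i, gE N l q i • v = 0)
    (hE : ∀ (x : M1) (y : M) (i : ℕ), ρ (gE N l q i) (x ⊗ₜ y) = (gE N l q i • x) ⊗ₜ y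
        + ((gK N l q i * gK N l q (i + 1) ^ (l - 1)) • x) ⊗ₜ (gE N l q i • y))
    (b : ℕ → ℕ → ℕ) (x : M1) :
    ρ (mon N q (gE N l q) b) (x ⊗ₜ v) = (mon N q (gE N l q) b • x) ⊗ₜ v := by
  have := mon_closed (W := ℕ) (N := N) (q := q) (E := gE N l q)
    (fun _ a ↦ ∀ x : M1, ρ a (x ⊗ₜ v) = (a • x) ⊗ₜ v)
    (fun x ↦ by rw [map_one, one_smul]; rfl)
    (fun w w' a b ha hb x ↦ by rw [map_mul, Module.End.mul_apply, hb, ha, mul_smul])
    (fun w a b ha hb x ↦ by
      rw [map_sub, LinearMap.sub_apply, ha, hb, sub_smul, TensorProduct.sub_tmul])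
    (fun w a c ha x ↦ by
      rw [map_smul, LinearMap.smul_apply, ha, smul_assoc, TensorProduct.smul_tmul'])
    (fun _ ↦ 0) (fun i x ↦ by rw [hE, hv, TensorProduct.tmul_zero, add_zero]) b
  exact this x

theorem rho_K
    (hK : ∀ (x : M1) (y : M) (j : ℕ), ρ (gK N l q j) (x ⊗ₜ y) = (gK N l q j • x) ⊗ₜ (gK N l q j • y))
    (κ : ℕ → ℕ) (x : M1) (y : M) :
    ρ (kmon N (gK N l q) κ) (x ⊗ₜ y) =
      (kmon N (gK N l q) κ • x) ⊗ₜ (kmon N (gK N l q) κ • y) := by
  have hone : ∀ (x : M1) (y : M), ρ 1 (x ⊗ₜ y) = ((1 : A N l q) • x) ⊗ₜ ((1 : A N l q) • y) := by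
    intro x y
    rw [map_one, one_smul, one_smul]; rfl
  have hmul : ∀ a b : A N l q, (∀ (x : M1) (y : M), ρ a (x ⊗ₜ y) = (a • x) ⊗ₜ (a • y)) →
      (∀ (x : M1) (y : M), ρ b (x ⊗ₜ y) = (b • x) ⊗ₜ (b • y)) →
      ∀ (x : M1) (y : M), ρ (a * b) (x ⊗ₜ y) = ((a * b) • x) ⊗ₜ ((a * b) • y) := by
    intro a b ha hb x y
    rw [map_mul, Module.End.mul_apply, hb, ha, mul_smul, mul_smul]
  have hpow : ∀ (j n : ℕ) (x : M1) (y : M), ρ (gK N l q j ^ n) (x ⊗ₜ y) =
      ((gK N l q j ^ n) • x) ⊗ₜ ((gK N l q j ^ n) • y) := by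
    intro j n
    induction n with
    | zero => intro x y; rw [pow_zero]; exact hone x y
    | succ n ih => intro x y; rw [pow_succ]; exact hmul _ _ ih (fun x y ↦ hK x y j) x y
  have hlist : ∀ (n : ℕ) (x : M1) (y : M),
      ρ ((List.range n).map fun j => gK N l q j ^ κ j).prod (x ⊗ₜ y) =
      (((List.range n).map fun j => gK N l q j ^ κ j).prod • x) ⊗ₜ
        (((List.range n).map fun j => gK N l q j ^ κ j).prod • y) := by
    intro n
    induction n with
    | zero => intro x y; simp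
    | succ n ih =>
      intro x y
      rw [List.range_succ, List.map_append, List.prod_append]
      refine hmul _ _ ih (fun x y ↦ ?_) x y
      simpa using hpow n (κ n) x y
  exact hlist (N + 1) x y

end tensor

/-- **PBWI** -/
theorem s_pbwi (h1 : S_ZB) (h2 : S_GAM) (h3 : S_SOC) (h5 : S_LM) (h6 : S_T2) : S_PBWI := by
  classical
  intro N l _ q D P
  have hq0 := q_ne P
  have hq1 : q ^ 2 ≠ 1 := by
    intro h
    have := P.prim.dvd_of_pow_eq_one 2 h
    have := Nat.le_of_dvd (by norm_num) this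
    have := P.h3
    omega
  have hq2 : q ^ 2 ≠ -1 := by
    intro h
    have h4 : q ^ 4 = 1 := by
      have : q ^ 4 = (q ^ 2) ^ 2 := by ring
      rw [this, h]; norm_num
    have := P.prim.dvd_of_pow_eq_one 4 h4
    have h5 := P.h3
    have h6 := Nat.le_of_dvd (by norm_num) this
    obtain ⟨c, hc⟩ := P.odd
    interval_cases l <;> omega
  rw [Fintype.linearIndependent_iff]
  intro c hc
  by_contra hcon
  push Not at hcon
  obtain ⟨x1, hx1⟩ := hcon
  obtain ⟨x0, hx0, hmax⟩ := Finset.exists_max_image (Finset.univ.filter fun x ↦ c x ≠ 0)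
    (fun x ↦ ht N x.1.1) ⟨x1, by simp [hx1]⟩
  have hcx0 : c x0 ≠ 0 := (Finset.mem_filter.1 hx0).2
  have hmax' : ∀ x, c x ≠ 0 → ht N x.1.1 ≤ ht N x0.1.1 := fun x hx ↦
    hmax x (Finset.mem_filter.2 ⟨Finset.mem_univ _, hx⟩)
  obtain ⟨a0, κ1, b0⟩ := x0
  -- the vector `t`
  set κ0 : Fin (N + 1) → ZMod l := fun j ↦ 0 + ((j : ℕ) : ZMod l) with hκ0
  obtain ⟨γ, hγ, hG⟩ := h2 N l q P 0
  set t : Zl q κ0 := mon N q (gF N l q) (topE N l) • zgen q κ0 with htdef
  have hm0 : zgen q κ0 ≠ 0 := by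
    intro h0
    have := (h1 N l q D P κ0).1.ne_zero a0
    rw [h0, smul_zero] at this
    exact this rfl
  have hEt : mon N q (gE N l q) (topE N l) • t = γ • zgen q κ0 := hG _ _ (sing_zgen κ0)
  have hli : LinearIndependent ℂ (fun b : EX N l => mon N q (gE N l q) b.1 • t) := by
    refine h3 N l q P (Zl q κ0) (fun k ↦ lsm (gE N l q k)) (fun b ↦ mon N q (gE N l q) b • t)
      ?_ ?_ ?_
    · rintro b ⟨i, j, hij, hj, hb⟩
      rw [mon_of_le (glA N l q).pE hij hj hb, zero_smul]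
    · intro k hk b _
      rw [lsm_apply, ← mul_smul, h5 _ N q (gE N l q) hq0 hq1 hq2 (glA N l q).sE b k hk, add_smul,
        Finset.sum_smul, smul_assoc]
      congr 1
      exact Finset.sum_congr rfl fun i _ ↦ by rw [smul_assoc]
    · rw [hEt]
      exact smul_ne_zero hγ hm0
  have hwt : ∀ b : EX N l, ∃ ν : Fin (N + 1) → ZMod l,
      WtM (q := q) ν (mon N q (gE N l q) b.1 • t) := by
    intro b
    obtain ⟨μ, hμ⟩ := exists_wtE P b.1
    obtain ⟨μ', hμ'⟩ := exists_wtF P (topE N l)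
    exact ⟨_, ((show WtM (q := q) κ0 (zgen q κ0) from (sing_zgen κ0).2).smul P hμ').smul P hμ⟩
  choose ν hν using hwt
  obtain ⟨φ, hφ⟩ := exists_dual hli b0
  -- the equations
  have key : ∀ lam : Fin (N + 1) → ZMod l, ∑ κ : Fin (N + 1) → Fin l, c (a0, κ, b0) *
      ((∏ j : Fin (N + 1), qz q (ν b0 j) ^ (κ j : ℕ)) *
        (∏ j : Fin (N + 1), qz q (lam j) ^ (κ j : ℕ))) = 0 := by
    intro lam
    obtain ⟨hli2, -, -⟩ := h1 N l q D P lam
    obtain ⟨ψ, hψ⟩ := exists_dual hli2 a0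
    obtain ⟨ρ, hρ⟩ := h6 N l q P (Zl q κ0) (Zl q lam)
    set v : Zl q lam := zgen q lam with hv
    have hsv : Sing q lam v := sing_zgen lam
    have hwv : WtM (q := q) lam v := hsv.2
    let Φ : (Zl q κ0 ⊗[ℂ] Zl q lam) →ₗ[ℂ] ℂ :=
      (TensorProduct.lid ℂ ℂ).toLinearMap ∘ₗ TensorProduct.map φ ψ
    have hΦ : ∀ x y, Φ (x ⊗ₜ y) = φ x * ψ y := fun x y ↦ rfl
    have hΦU : ∀ h, h ≤ ht N a0.1 → ∀ w ∈ Uf N l q (Zl q κ0) v h, Φ w = 0 := by
      intro h hh w hw
      have : Uf N l q (Zl q κ0) v h ≤ LinearMap.ker Φ := by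
        refine Submodule.span_le.2 ?_
        rintro w ⟨x, z, hz, rfl⟩
        have hz0 : ψ z = 0 := by
          have : Zf N l q v h ≤ LinearMap.ker ψ := by
            refine Submodule.span_le.2 ?_
            rintro z ⟨a, ha, rfl⟩
            change ψ (mon N q (gF N l q) a.1 • v) = 0
            rw [hψ a, if_neg]
            rintro rfl
            omega
          exact this hz
        change Φ (x ⊗ₜ z) = 0
        rw [hΦ, hz0, mul_zero]
      exact this hw
    have hterm : ∀ x : EX N l × (Fin (N + 1) → Fin l) × EX N l, c x ≠ 0 →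
        Φ (ρ (pb N l q x) (t ⊗ₜ v)) = if x.1 = a0 ∧ x.2.2 = b0 then
          ((∏ j : Fin (N + 1), qz q (ν b0 j) ^ (x.2.1 j : ℕ)) *
        (∏ j : Fin (N + 1), qz q (lam j) ^ (x.2.1 j : ℕ))) else 0 := by
      intro x hx
      have hh := hmax' x hx
      obtain ⟨a, κ, b⟩ := x
      change Φ (ρ (mon N q (gF N l q) a.1 * kmon N (gK N l q) (kx κ) * mon N q (gE N l q) b.1)
        (t ⊗ₜ v)) = _
      rw [map_mul, map_mul, Module.End.mul_apply, Module.End.mul_apply,
        rho_E hsv.1 (fun x y i ↦ (hρ x y).1 i), rho_K (fun x y j ↦ (hρ x y).2.2 j),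
        kmon_smul (hν b), kmon_smul hwv, ← TensorProduct.smul_tmul', TensorProduct.tmul_smul,
        map_smul, map_smul, map_smul, map_smul]
      have hord := Ord.mon (ρ := ρ) (v := v) P h5 hwv (fun x y i ↦ (hρ x y).2.1 i) a.1
      have hvZ : v ∈ Zf N l q v (0 + 1) := by
        have h0 : IsEx N l (fun _ _ ↦ 0) := fun i j ↦
          ⟨fun _ ↦ by have := P.h3; change 0 < l; omega, fun _ ↦ rfl⟩
        refine Submodule.subset_span ⟨⟨_, h0⟩, ?_, ?_⟩
        · change ht N (fun _ _ ↦ 0) < 0 + 1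
          simp [ht]
        · have : mon N q (gF N l q) (fun _ _ ↦ 0) = 1 := by
            simp [mon, rowM]
          rw [this, one_smul]
      have h7 := hord.2 0 (mon N q (gE N l q) b.1 • t) v hvZ
      rw [zero_add] at h7
      have h8 := hΦU _ hh _ h7
      rw [map_sub, sub_eq_zero, hΦ, hφ b, hψ a] at h8
      rw [h8]
      by_cases ha : a = a0 <;> by_cases hb : b = b0
      · subst ha; subst hb; simp
      · simp [hb]
      · simp [ha]
      · simp [ha]
    have h9 := congrArg (fun a ↦ Φ (ρ a (t ⊗ₜ v))) hc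
    simp only [map_sum, map_smul, LinearMap.sum_apply, LinearMap.smul_apply, map_zero,
      LinearMap.zero_apply, smul_eq_mul] at h9
    have h10 : ∑ x, c x * Φ (ρ (pb N l q x) (t ⊗ₜ v)) = ∑ x, c x *
        (if x.1 = a0 ∧ x.2.2 = b0 then ((∏ j : Fin (N + 1), qz q (ν b0 j) ^ (x.2.1 j : ℕ)) *
        (∏ j : Fin (N + 1), qz q (lam j) ^ (x.2.1 j : ℕ))) else 0) := by
      refine Finset.sum_congr rfl fun x _ ↦ ?_
      by_cases hx : c x = 0
      · rw [hx, zero_mul, zero_mul]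
      · rw [hterm x hx]
    rw [h10, Fintype.sum_prod_type, Finset.sum_eq_single a0] at h9
    · rw [Fintype.sum_prod_type] at h9
      rw [← h9]
      refine Finset.sum_congr rfl fun κ _ ↦ ?_
      rw [Finset.sum_eq_single b0]
      · simp
      · intro b _ hb
        simp [hb]
      · intro h; exact absurd (Finset.mem_univ _) h
    · intro a _ ha
      refine Finset.sum_eq_zero fun x _ ↦ ?_
      simp [ha]
    · intro h; exact absurd (Finset.mem_univ _) h
  refine hcx0 (fourier P (fun κ ↦ c (a0, κ, b0)) (fun ν' ↦ ?_) κ1)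
  rw [← key (fun j ↦ ν' j - ν b0 j)]
  refine Finset.sum_congr rfl fun κ _ ↦ ?_
  rw [← Finset.prod_mul_distrib]
  congr 1
  refine Finset.prod_congr rfl fun j _ ↦ ?_
  rw [← mul_pow, ← qz_add P]
  congr 2
  ring

end Pool.Agent.Helper17.SQ
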