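import Pool.Agent.Helper17.SQ.PBWI1

/-!
# Project SQ (MP_bb32d1_al), packets T2, PBWS, TF0
-/

set_option autoImplicit false

namespace Pool.Agent.Helper17.SQ

open Pool.Agent.Helper19.SQ
open scoped TensorProduct

variable {N l : ℕ} {q : ℂ}

/-- the action as an algebra map -/
def lsmA (M : Type) [AddCommGroup M] [Module ℂ M] [Module (A N l q) M]
    [IsScalarTower ℂ (A N l q) M] : A N l q →ₐ[ℂ] Module.End ℂ M where
  toFun := lsm
  map_one' := LinearMap.ext fun m ↦ one_smul _ m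
  map_mul' a b := LinearMap.ext fun m ↦ mul_smul a b m
  map_zero' := LinearMap.ext fun m ↦ zero_smul _ m
  map_add' a b := LinearMap.ext fun m ↦ add_smul a b m
  commutes' c := LinearMap.ext fun m ↦ by
    rw [lsm_apply, Algebra.algebraMap_eq_smul_one, smul_assoc, one_smul]
    rfl

/-- **T2** -/
theorem s_t2 (hCT : S_CT) : S_T2 := by
  intro N l q P M1 M2 _ _ _ _ _ _ _ _
  let f1 : A N l q →ₐ[ℂ] Module.End ℂ (M1 ⊗[ℂ] M2) :=
    (Module.End.rTensorAlgHom ℂ M1 M2).comp (lsmA M1)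
  let f2 : A N l q →ₐ[ℂ] Module.End ℂ (M1 ⊗[ℂ] M2) :=
    (Module.End.lTensorAlgHom ℂ M2 M1).comp (lsmA M2)
  have e1 : ∀ (a : A N l q) (x : M1) (y : M2), f1 a (x ⊗ₜ y) = (a • x) ⊗ₜ y := fun a x y ↦ rfl
  have e2 : ∀ (a : A N l q) (x : M1) (y : M2), f2 a (x ⊗ₜ y) = x ⊗ₜ (a • y) := fun a x y ↦ rfl
  have hcomm : ∀ a b : A N l q, f1 a * f2 b = f2 b * f1 a := by
    intro a b
    apply TensorProduct.ext'
    intro x y
    rw [Module.End.mul_apply, Module.End.mul_apply, e1, e2, e1, e2]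
  have h := hCT _ N l q P _ _ _ _ _ _ ((glA N l q).map f1) ((glA N l q).map f2)
    (fun i j ↦ hcomm _ _) (fun i j ↦ hcomm _ _) (fun i j ↦ hcomm _ _) (fun i j ↦ hcomm _ _)
    (fun i j ↦ hcomm _ _) (fun i j ↦ hcomm _ _) (fun i j ↦ hcomm _ _) (fun i j ↦ hcomm _ _)
    (fun i j ↦ hcomm _ _)
  refine ⟨liftA h, fun x y ↦ ⟨fun i ↦ ?_, fun i ↦ ?_, fun j ↦ ?_⟩⟩
  · rw [liftA_E, LinearMap.add_apply, e1, Module.End.mul_apply, e2, ← map_pow, ← map_mul, e1]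
  · rw [liftA_F, LinearMap.add_apply, e2, Module.End.mul_apply, ← map_pow, ← map_mul, e2, e1]
  · rw [liftA_K, Module.End.mul_apply, e2, e1]

theorem kmon_congr {B : Type} [Ring B] (N : ℕ) (K : ℕ → B) (κ κ' : ℕ → ℕ)
    (h : ∀ j, j < N + 1 → κ j = κ' j) : kmon N K κ = kmon N K κ' := by
  unfold kmon
  congr 1
  refine List.map_congr_left fun j hj ↦ ?_
  rw [h j (List.mem_range.1 hj)]

/-- **PBWS** -/
theorem s_pbws (h : S_TRI) : S_PBWS := by
  intro N l q P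
  rw [eq_top_iff]
  intro x _
  refine Submodule.span_mono ?_ (h N l q P x)
  rintro y ⟨a, b, κ, hκ, rfl⟩
  refine ⟨(a, fun j ↦ ⟨κ j, hκ j⟩, b), ?_⟩
  unfold pb
  rw [kmon_congr N (gK N l q) (kx fun j : Fin (N + 1) ↦ ⟨κ j, hκ j⟩) κ fun j hj ↦ ?_]
  unfold kx
  rw [dif_pos hj]

/-- **TF0** -/
theorem s_tf0 (h1 : S_PBWI) (h2 : S_PBWS) : S_TF0 := by
  classical
  intro N l _ q D P
  let b := Module.Basis.mk (h1 N l q D P) (h2 N l q P).ge
  refine ⟨b.constr ℂ fun x ↦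
    if x.1.1 = topE N l ∧ (∀ j, (x.2.1 j : ℕ) = 0) ∧ x.2.2.1 = topE N l then 1 else 0, fun x ↦ ?_⟩
  have hb : b x = pb N l q x := Module.Basis.mk_apply _ _ x
  rw [← hb, Module.Basis.constr_basis]

end Pool.Agent.Helper17.SQ
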