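import Pool.Agent.Helper19.SQ.GoalsQ2
import Pool.Agent.Helper19.SQ.GoalsH

/-!
# Project SQ (MP_bb32d1_al), packet LE: `L delta(E_k) = oE_k L`, `L delta(K_k) = delta(K_k) L`
-/

set_option autoImplicit false
set_option linter.unusedSectionVars false

namespace Pool.Agent.Helper17.SQ

open Pool.Agent.Helper19.SQ

section

variable {B : Type} [Ring B] [Algebra ℂ B]

theorem sum_dE {N : ℕ} {q : ℂ} {E : ℕ → B} (f : Fin (N + 1) → B) (k : ℕ) (b : Fin (N + 1)) :
    ∑ c, f c * dE N q E k c b = q ^ pr b k • (f b * E k) +
      (if h : (b : ℕ) = k + 1 then f ⟨k, by omega⟩ else 0) := by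
  unfold dE
  simp only [Matrix.of_apply, mul_add, Finset.sum_add_distrib]
  congr 1
  · simp
  · by_cases hb : (b : ℕ) = k + 1
    · rw [dif_pos hb, Finset.sum_eq_single ⟨k, by omega⟩]
      · simp [hb]
      · intro c _ hc
        have : (c : ℕ) ≠ k := fun h ↦ hc (Fin.ext h)
        simp [this]
      · intro h; exact absurd (Finset.mem_univ _) h
    · rw [dif_neg hb]
      exact Finset.sum_eq_zero fun c _ ↦ by simp [hb]

theorem sum_oE {N l : ℕ} {E K : ℕ → B} (f : Fin (N + 1) → B) (k : ℕ) (a : Fin (N + 1)) :
    ∑ c, oE N l E K k a c * f c = E k * f a +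
      (if h : (a : ℕ) = k ∧ k + 1 < N + 1 then K k * ki l K (k + 1) * f ⟨k + 1, h.2⟩ else 0) := by
  unfold oE
  simp only [Matrix.of_apply, add_mul, Finset.sum_add_distrib]
  congr 1
  · simp
  · by_cases ha : (a : ℕ) = k ∧ k + 1 < N + 1
    · rw [dif_pos ha, Finset.sum_eq_single ⟨k + 1, ha.2⟩]
      · simp [ha.1]
      · intro c _ hc
        have : (c : ℕ) ≠ k + 1 := fun h ↦ hc (Fin.ext h)
        simp [this]
      · intro h; exact absurd (Finset.mem_univ _) h
    · rw [dif_neg ha]
      refine Finset.sum_eq_zero fun c _ ↦ ?_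
      have : ¬ ((a : ℕ) = k ∧ (c : ℕ) = k + 1) := fun h ↦ ha ⟨h.1, by omega⟩
      simp [this]

/-- the entries, as an identity for natural indices -/
theorem sLE_entry (hR : S_ROOT) (hKG : S_KG) (hKI : S_KI) {N l : ℕ} {q : ℂ} {E F K : ℕ → B}
    (P : Par N l q) (G : GlRel N l q E F K) {k a b : ℕ} (hk : k < N) (ha : a ≤ N) (hb : b ≤ N) :
    q ^ pr b k • (Lent q E K a b * E k) + (if b = k + 1 then Lent q E K a k else 0) =
      E k * Lent q E K a b + (if a = k then K k * ki l K (k + 1) * Lent q E K (k + 1) b else 0) := by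
  have hq : q ≠ 0 := P.prim.ne_zero (by have := P.h3; omega)
  have hl : 1 ≤ l := by have := P.h3; omega
  have hq2 : q ^ 2 ≠ -1 := by
    intro h
    have h4 : q ^ 4 = 1 := by
      have : q ^ 4 = (q ^ 2) ^ 2 := by ring
      rw [this, h]; norm_num
    have := P.prim.dvd_of_pow_eq_one 4 h4
    have h5 := P.h3
    have h6 := Nat.le_of_dvd (by norm_num) this
    obtain ⟨c, hc⟩ := P.odd
    interval_cases l <;> omega
  have R := hR B q E hq hq2 G.sE
  obtain ⟨k1, k2, k3, -, -, -⟩ := hKI B l K hl G.K_comm G.K_pow
  have hKiK : ∀ x : B, K k * ki l K (k + 1) * (x * K (k + 1)) = K k * ki l K (k + 1) * x * K (k + 1) :=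
    fun x ↦ by rw [mul_assoc, mul_assoc, mul_assoc]
  rcases lt_trichotomy a b with hab | hab | hab
  · -- `a < b`
    have e1 : Lent q E K a b = 0 := by
      unfold Lent; rw [if_neg (by omega), if_neg (by omega)]
    rw [e1, zero_mul, smul_zero, zero_add, mul_zero, zero_add]
    by_cases hak : a = k
    · by_cases hbk : b = k + 1
      · rw [if_pos hak, if_pos hbk]
        subst hak hbk
        unfold Lent
        rw [if_pos rfl, if_pos rfl, mul_assoc, k2, mul_one]
      · rw [if_pos hak, if_neg hbk]
        unfold Lent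
        rw [if_neg (by omega), if_neg (by omega), mul_zero]
    · rw [if_neg hak]
      by_cases hbk : b = k + 1
      · rw [if_pos hbk]
        unfold Lent
        rw [if_neg (by omega), if_neg (by omega)]
      · rw [if_neg hbk]
  · -- `a = b`
    subst hab
    have e1 : Lent q E K a a = K a := by unfold Lent; rw [if_pos rfl]
    have e2 : Lent q E K (k + 1) k = (1 - q⁻¹ ^ 2) • (E k * K (k + 1)) := by
      unfold Lent
      rw [if_neg (by omega), if_pos (by omega), R.base]
    rw [e1, G.KE a k, smul_smul]
    by_cases h1 : a = k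
    · subst h1
      rw [if_neg (by omega), if_pos rfl, e2]
      have hp : pr a a = 1 := by simp [pr]
      have e3 : K a * ki l K (a + 1) * (E a * K (a + 1)) = q ^ 2 • (E a * K a) := by
        have h := (hKG B N l q E F K hl hq G (a + 1) a (a + 1) (by omega)).1.2
        rw [R.base] at h
        have hew : ew (a + 1) a (a + 1) = -1 := by simp [ew]
        rw [hew, neg_neg, zpow_one] at h
        have h' := G.KE a a
        rw [hp, zpow_one] at h'
        rw [hKiK, mul_assoc (K a), h, mul_smul_comm, smul_mul_assoc, ← mul_assoc (K a), h',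
          smul_mul_assoc, smul_mul_assoc, smul_smul, mul_assoc (E a * K a), k2, mul_one, ← sq]
      rw [mul_smul_comm, e3, hp]
      have h3 : q⁻¹ ^ 2 * q ^ 2 = 1 := by rw [← mul_pow, inv_mul_cancel₀ hq, one_pow]
      rw [smul_smul, sub_mul, h3, one_mul, zpow_one, add_zero]
      module
    · by_cases h2 : a = k + 1
      · subst h2
        rw [if_pos rfl, if_neg (by omega), e2]
        have hp : pr (k + 1) k = -1 := by simp [pr]
        rw [hp, zpow_neg_one]
        module
      · rw [if_neg h2, if_neg h1]
        have hp : pr a k = 0 := by simp [pr, h1, h2]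
        rw [hp, zpow_zero, one_mul, one_smul]
  · -- `b < a`
    have e1 : Lent q E K a b = (1 - q⁻¹ ^ 2) • (rv q E b a * K a) := by
      unfold Lent; rw [if_neg (by omega), if_pos hab]
    have e2 : (if b = k + 1 then Lent q E K a k else 0) =
        (1 - q⁻¹ ^ 2) • ((if b = k + 1 then rv q E k a else 0) * K a) := by
      by_cases h : b = k + 1
      · rw [if_pos h, if_pos h]
        unfold Lent
        rw [if_neg (by omega), if_pos (by omega)]
      · rw [if_neg h, if_neg h, zero_mul, smul_zero]
    have e3 : (if a = k then K k * ki l K (k + 1) * Lent q E K (k + 1) b else 0) =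
        (1 - q⁻¹ ^ 2) • ((if a = k then q • rv q E b (k + 1) else 0) * K a) := by
      by_cases h : a = k
      · rw [if_pos h, if_pos h]
        subst h
        have e4 : Lent q E K (a + 1) b = (1 - q⁻¹ ^ 2) • (rv q E b (a + 1) * K (a + 1)) := by
          unfold Lent
          rw [if_neg (by omega), if_pos (by omega)]
        obtain ⟨⟨g1, g2⟩, -, -⟩ := hKG B N l q E F K hl hq G a b (a + 1) (by omega)
        obtain ⟨⟨g3, g4⟩, -, -⟩ := hKG B N l q E F K hl hq G (a + 1) b (a + 1) (by omega)
        have hew1 : ew a b (a + 1) = 0 := by simp [ew, show ¬ a = b by omega]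
        have hew2 : ew (a + 1) b (a + 1) = -1 := by simp [ew, show ¬ a + 1 = b by omega]
        rw [hew1, zpow_zero, one_smul] at g1
        rw [hew2, neg_neg, zpow_one] at g4
        rw [e4, mul_smul_comm, hKiK, mul_assoc (K a), g4, mul_smul_comm, ← mul_assoc (K a), g1]
        rw [smul_mul_assoc, smul_mul_assoc, mul_assoc _ (ki l K (a + 1)), k2, mul_one]
      · rw [if_neg h, if_neg h, zero_mul, smul_zero]
    rw [e1, e2, e3, smul_mul_assoc, smul_comm (q ^ pr b k), mul_smul_comm, ← smul_add, ← smul_add]
    congr 1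
    rw [mul_assoc, G.KE a k, mul_smul_comm, ← mul_assoc, ← mul_assoc, smul_smul, ← smul_mul_assoc,
      ← add_mul, ← add_mul]
    congr 1
    have hbase := R.base k
    rcases lt_trichotomy b k with h1 | h1 | h1
    · -- `b < k`
      have hpb : pr b k = 0 := by simp [pr, show ¬ b = k by omega, show ¬ b = k + 1 by omega]
      rw [hpb, zpow_zero, one_mul, if_neg (by omega : ¬ b = k + 1), add_zero]
      rcases lt_trichotomy a k with h2 | h2 | h2
      · have hpa : pr a k = 0 := by simp [pr, show ¬ a = k by omega, show ¬ a = k + 1 by omega]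
        rw [hpa, zpow_zero, one_smul, if_neg (by omega), add_zero, R.R2 k b a hab (Or.inr h2)]
      · subst h2
        have hpa : pr a a = 1 := by simp [pr]
        rw [hpa, zpow_one, if_pos rfl, R.R3 b a hab, smul_sub, smul_smul, mul_inv_cancel₀ hq,
          one_smul]
        abel
      · rw [if_neg (by omega), add_zero]
        by_cases h3 : a = k + 1
        · subst h3
          have hpa : pr (k + 1) k = -1 := by simp [pr]
          rw [hpa, zpow_neg_one, R.R5 b k h1, smul_smul, inv_mul_cancel₀ hq, one_smul]
        · have hpa : pr a k = 0 := by simp [pr, show ¬ a = k by omega, h3]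
          rw [hpa, zpow_zero, one_smul, R.R6 b k a h1 (by omega)]
    · -- `b = k`
      subst h1
      have hpb : pr b b = 1 := by simp [pr]
      rw [hpb, zpow_one, if_neg (by omega), if_neg (by omega), add_zero, add_zero]
      by_cases h3 : a = b + 1
      · subst h3
        have hpa : pr (b + 1) b = -1 := by simp [pr]
        rw [hpa, zpow_neg_one, mul_inv_cancel₀ hq, one_smul, hbase]
      · have hpa : pr a b = 0 := by simp [pr, show ¬ a = b by omega, h3]
        rw [hpa, zpow_zero, mul_one, R.R4 b a (by omega)]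
    · rw [if_neg (by omega : ¬ a = k), add_zero]
      have hpa : pr a k = 0 := by simp [pr, show ¬ a = k by omega, show ¬ a = k + 1 by omega]
      rw [hpa, zpow_zero, mul_one]
      by_cases h3 : b = k + 1
      · subst h3
        have hpb : pr (k + 1) k = -1 := by simp [pr]
        rw [hpb, zpow_neg_one, if_pos rfl, R.rec' k a hab]
        abel
      · have hpb : pr b k = 0 := by simp [pr, show ¬ b = k by omega, h3]
        rw [hpb, zpow_zero, one_smul, if_neg h3, add_zero, R.R2 k b a hab (Or.inl (by omega))]

theorem sLE (hR : S_ROOT) (hKG : S_KG) (hKI : S_KI) : S_LE := by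
  intro B _ _ N l q E F K P G k
  ext a b
  rw [Matrix.mul_apply, Matrix.mul_apply, sum_dE, sum_oE]
  unfold Lmat
  simp only [Matrix.of_apply]
  by_cases hk : k < N
  · have := sLE_entry hR hKG hKI P G hk (Nat.lt_succ_iff.1 a.2) (Nat.lt_succ_iff.1 b.2)
    have hk1 : k + 1 < N + 1 := by omega
    simp only [hk1, and_true]
    by_cases h1 : (b : ℕ) = k + 1 <;> by_cases h2 : (a : ℕ) = k <;> simp only [h1, h2, if_true,
      if_false, dif_pos, dif_neg, not_false_eq_true] at this ⊢ <;> exact this
  · rw [G.E_out k (by omega), mul_zero, zero_mul, smul_zero, dif_neg (by omega), dif_neg (by omega)]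

/-- weights of the entries of `L` -/
theorem sLK (hKG : S_KG) : S_LK := by
  intro B _ _ N l q E F K P G k
  have hq : q ≠ 0 := P.prim.ne_zero (by have := P.h3; omega)
  have hl : 1 ≤ l := by have := P.h3; omega
  ext a b
  rw [Matrix.mul_apply, Matrix.mul_apply, Finset.sum_eq_single b, Finset.sum_eq_single a]
  · unfold Lmat dK
    simp only [Matrix.of_apply, if_true, mul_smul_comm, smul_mul_assoc]
    unfold Lent
    by_cases h1 : (a : ℕ) = b
    · have h1' : a = b := Fin.ext h1
      subst h1'
      rw [if_pos rfl, G.K_comm]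
    · rw [if_neg h1]
      by_cases h2 : (b : ℕ) < a
      · rw [if_pos h2, smul_mul_assoc, mul_smul_comm]
        have g := (hKG B N l q E F K hl hq G k b a h2).1.1
        rw [← mul_assoc (K k), g, smul_mul_assoc, mul_assoc (rv q E b a), mul_assoc (rv q E b a),
          G.K_comm k a]
        simp only [smul_smul]
        congr 1
        unfold ew
        by_cases h3 : (b : ℕ) = k <;> by_cases h4 : (a : ℕ) = k
        · exact absurd (h4.trans h3.symm) h1
        · simp [h3, h4, Ne.symm h4, mul_comm]
        · have e : (0 : ℤ) - 1 = -1 := by norm_num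
          simp only [h3, h4, if_true, if_false, Ne.symm h3, e, zpow_neg_one]
          field_simp
        · simp [h3, h4, Ne.symm h3, Ne.symm h4]
      · rw [if_neg h2, zero_mul, mul_zero, smul_zero, smul_zero]
  · intro c _ hc
    unfold dK
    simp [Ne.symm hc]
  · intro h; exact absurd (Finset.mem_univ _) h
  · intro c _ hc
    unfold dK
    simp [hc]
  · intro h; exact absurd (Finset.mem_univ _) h

end

end Pool.Agent.Helper17.SQ
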