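import Pool.Agent.Helper84.SQ.GoalsB

/-!
# SQ, packet LVS: the slices
-/

namespace Pool.Agent.Helper17.SQ

open Pool.Agent.Helper84.SQ

theorem lvs (hS : SplStmt) : LvsStmt := by
  intro N d K p V R F hR hV hp hK
  have hVj : ∀ j < V.length, V.getD j 0 < d := fun j hj => by
    rw [List.getD_eq_getElem _ _ hj]
    exact hV _ (List.getElem_mem hj)
  have key : ∀ j : ℕ, (∀ R' ∈ leaves N d K V R j, Ok N d R' F ∧ Sol d R' ⊆ Sol d R ∧
      ∀ j' < j, j' < V.length → ∀ i : Fin d, i.val = V.getD j' 0 → ∀ x ∈ Sol d R', ∀ y ∈ Sol d R',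
        x i = y i) ∧
      ∀ (κ h : Fin d → ℝ) (Rg : ℝ),
        (∀ x ∈ Sol d R, ∀ y ∈ Sol d R, gq κ h x - gq κ h y ≤ Rg) →
        ∀ a ∈ Sol d R, ∃ R' ∈ leaves N d K V R j, ∃ a' ∈ Sol d R',
          gq κ h a' ≤ gq κ h a + j * (20 * Rg / K) := by
    intro j
    induction j with
    | zero =>
      refine ⟨fun R' hR' => ?_, fun κ h Rg _ a ha => ⟨R, by simp [leaves], a, ha, by simp⟩⟩
      obtain rfl : R' = R := by simpa [leaves] using hR'
      exact ⟨hR, subset_rfl, fun j' hj' => absurd hj' (Nat.not_lt_zero _)⟩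
    | succ j ih =>
      obtain ⟨ihA, ihB⟩ := ih
      by_cases hj : j < V.length
      · have hl : leaves N d K V R (j + 1) =
            (leaves N d K V R j).flatMap (split N d K (V.getD j 0)) := by
          simp only [leaves, if_pos hj]
        rw [hl]
        refine ⟨fun R'' hR'' => ?_, fun κ h Rg hRg a ha => ?_⟩
        · obtain ⟨R', hR', hm⟩ := List.mem_flatMap.1 hR''
          obtain ⟨ok, sub, con⟩ := ihA R' hR'
          obtain ⟨ok2, sub2, t, ht⟩ := (hS N d K (V.getD j 0) R' F ok (hVj j hj) hK).1 R'' hm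
          refine ⟨ok2, sub2.trans sub, fun j' hj' hj'V i hi x hx y hy => ?_⟩
          rcases Nat.lt_succ_iff_lt_or_eq.1 hj' with h | h
          · exact con j' h hj'V i hi x (sub2 hx) y (sub2 hy)
          · subst h
            have e : i = ⟨V.getD j' 0, hVj j' hj⟩ := Fin.ext hi
            rw [e, ht x hx, ht y hy]
        · obtain ⟨R', hR', a', ha', hle⟩ := ihB κ h Rg hRg a ha
          obtain ⟨ok, sub, -⟩ := ihA R' hR'
          obtain ⟨R'', hR'', a'', ha'', hle2⟩ :=
            (hS N d K (V.getD j 0) R' F ok (hVj j hj) hK).2 κ h Rg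
              (fun x hx y hy => hRg x (sub hx) y (sub hy)) a' ha'
          refine ⟨R'', List.mem_flatMap.2 ⟨R', hR', hR''⟩, a'', ha'', ?_⟩
          push_cast
          linarith
      · have hl : leaves N d K V R (j + 1) = leaves N d K V R j := by
          simp only [leaves, if_neg hj]
        rw [hl]
        refine ⟨fun R' hR' => ?_, fun κ h Rg hRg a ha => ?_⟩
        · obtain ⟨ok, sub, con⟩ := ihA R' hR'
          exact ⟨ok, sub, fun j' hj' hj'V => con j' (by omega) hj'V⟩
        · obtain ⟨R', hR', a', ha', hle⟩ := ihB κ h Rg hRg a ha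
          refine ⟨R', hR', a', ha', ?_⟩
          have h0 : 0 ≤ Rg := by
            have := hRg a ha a ha
            simpa using this
          have h1 : (0 : ℝ) ≤ 20 * Rg / K := by positivity
          push_cast
          linarith
  obtain ⟨kA, kB⟩ := key p
  refine ⟨fun R' hR' => ?_, kB⟩
  obtain ⟨ok, sub, con⟩ := kA R' hR'
  refine ⟨ok, sub, fun i hi x hx y hy => ?_⟩
  obtain ⟨j', hj', e⟩ := List.mem_iff_getElem.1 hi
  exact con j' (by omega) hj' i (by rw [List.getD_eq_getElem _ _ hj', e]) x hx y hy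

end Pool.Agent.Helper17.SQ
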