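import Pool.Agent.Helper19.SQ.GoalsS

/-!
# Project SQ (MP_bb32d1_al), packet PBWI: basic facts
-/

set_option autoImplicit false

namespace Pool.Agent.Helper17.SQ

open Pool.Agent.Helper19.SQ
open scoped TensorProduct

section basic

variable {B : Type} [Ring B] [Algebra ℂ B]

/-- a monomial with a zero factor -/
theorem mon_zero {N : ℕ} {q : ℂ} {E : ℕ → B} {b : ℕ → ℕ → ℕ} {i j : ℕ} (hij : i < j) (hj : j ≤ N)
    (h : rv q E i j ^ b i j = 0) : mon N q E b = 0 := by
  unfold mon
  apply List.prod_eq_zero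
  rw [List.mem_map]
  refine ⟨i, List.mem_range.2 (by omega), ?_⟩
  unfold rowM
  apply List.prod_eq_zero
  rw [List.mem_map]
  refine ⟨j - i - 1, List.mem_range.2 (by omega), ?_⟩
  have e : i + 1 + (j - i - 1) = j := by omega
  rw [e, h]

theorem mon_of_le {N l : ℕ} {q : ℂ} {E : ℕ → B} (hp : ∀ d i, rvA q E d i ^ l = 0)
    {b : ℕ → ℕ → ℕ} {i j : ℕ} (hij : i < j) (hj : j ≤ N) (h : l ≤ b i j) : mon N q E b = 0 := by
  apply mon_zero hij hj
  obtain ⟨c, hc⟩ := Nat.exists_eq_add_of_le h
  rw [hc, pow_add]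
  unfold rv
  rw [hp, zero_mul]

/-- A property closed under products, sums of elements with the same value of the weight. -/
theorem mon_closed {N : ℕ} {q : ℂ} {E : ℕ → B} {W : Type} [AddCommMonoid W] (P : W → B → Prop)
    (hone : P 0 1) (hmul : ∀ w w' a b, P w a → P w' b → P (w + w') (a * b))
    (hsub : ∀ w a b, P w a → P w b → P w (a - b)) (hsm : ∀ w a (c : ℂ), P w a → P w (c • a))
    (f : ℕ → W) (hE : ∀ i, P (f i) (E i)) (b : ℕ → ℕ → ℕ) :
    P (∑ i ∈ Finset.range N, ∑ d ∈ Finset.range (N - i),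
      b i (i + 1 + d) • ∑ k ∈ Finset.range (d + 1), f (i + k)) (mon N q E b) := by
  have hrv : ∀ d i, P (∑ k ∈ Finset.range (d + 1), f (i + k)) (rvA q E d i) := by
    intro d
    induction d with
    | zero => intro i; simpa [rvA] using hE i
    | succ d ih =>
      intro i
      have e : ∑ k ∈ Finset.range (d + 1 + 1), f (i + k) =
          f i + ∑ k ∈ Finset.range (d + 1), f (i + 1 + k) := by
        rw [Finset.sum_range_succ', add_comm, add_zero]
        congr 1
        exact Finset.sum_congr rfl fun k _ ↦ by congr 1; ring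
      rw [e]
      unfold rvA
      refine hsub _ _ _ (hmul _ _ _ _ (hE i) (ih (i + 1))) (hsm _ _ _ ?_)
      rw [add_comm]
      exact hmul _ _ _ _ (ih (i + 1)) (hE i)
  have hpow : ∀ w a, P w a → ∀ n : ℕ, P (n • w) (a ^ n) := by
    intro w a h n
    induction n with
    | zero => rw [zero_smul, pow_zero]; exact hone
    | succ n ih => rw [add_smul, one_smul, pow_succ]; exact hmul _ _ _ _ ih h
  have hlist : ∀ (n : ℕ) (g : ℕ → B) (w : ℕ → W), (∀ i, i < n → P (w i) (g i)) →
      P (∑ i ∈ Finset.range n, w i) ((List.range n).map g).prod := by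
    intro n g w
    induction n with
    | zero => intro _; simpa using hone
    | succ n ih =>
      intro h
      rw [Finset.sum_range_succ, List.range_succ, List.map_append, List.prod_append]
      refine hmul _ _ _ _ (ih fun i hi ↦ h i (by omega)) ?_
      simpa using h n (by omega)
  unfold mon
  refine hlist N _ _ fun i _ ↦ ?_
  unfold rowM
  refine hlist (N - i) _ _ fun d _ ↦ ?_
  refine hpow _ _ ?_ _
  unfold rv
  have e : i + 1 + d - i - 1 = d := by omega
  rw [e]
  exact hrv d i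

/-- height of a changed exponent -/
theorem ht_upd {N : ℕ} (b : ℕ → ℕ → ℕ) {i j : ℕ} (hi : i ≤ N) (hj : j ≤ N) (c : ℕ) :
    ht N (upd b i j c) + b i j * (j - i) = ht N b + c * (j - i) := by
  unfold ht
  have key : ∀ (g : ℕ → ℕ → ℕ), ∑ i' ∈ Finset.range (N + 1), ∑ j' ∈ Finset.range (N + 1), g i' j' =
      (∑ i' ∈ Finset.range (N + 1), ∑ j' ∈ Finset.range (N + 1),
        if i' = i ∧ j' = j then 0 else g i' j') + g i j := by
    intro g
    have e : g i j = ∑ i' ∈ Finset.range (N + 1), ∑ j' ∈ Finset.range (N + 1),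
        if i' = i ∧ j' = j then g i' j' else 0 := by
      rw [Finset.sum_eq_single i, Finset.sum_eq_single j]
      · simp
      · intro j' _ hj'; simp [hj']
      · intro h; exact absurd (Finset.mem_range.2 (by omega)) h
      · intro i' _ hi'; simp [hi']
      · intro h; exact absurd (Finset.mem_range.2 (by omega)) h
    rw [e, ← Finset.sum_add_distrib]
    refine Finset.sum_congr rfl fun i' _ ↦ ?_
    rw [← Finset.sum_add_distrib]
    refine Finset.sum_congr rfl fun j' _ ↦ ?_
    by_cases h : i' = i ∧ j' = j <;> simp [h]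
  rw [key (fun i' j' ↦ upd b i j c i' j' * (j' - i')), key (fun i' j' ↦ b i' j' * (j' - i'))]
  have e1 : ∀ i' j', (if i' = i ∧ j' = j then 0 else upd b i j c i' j' * (j' - i')) =
      (if i' = i ∧ j' = j then 0 else b i' j' * (j' - i')) := by
    intro i' j'
    by_cases h : i' = i ∧ j' = j
    · simp [h]
    · rw [if_neg h, if_neg h]; unfold upd; rw [if_neg h]
  simp only [e1]
  have e2 : upd b i j c i j = c := by simp [upd]
  rw [e2]
  ring

theorem ht_inc {N : ℕ} (b : ℕ → ℕ → ℕ) {i j : ℕ} (hi : i ≤ N) (hj : j ≤ N) :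
    ht N (inc b i j) = ht N b + (j - i) := by
  have := ht_upd b hi hj (b i j + 1)
  unfold inc
  rw [add_mul, one_mul] at this
  omega

theorem ht_mvr {N : ℕ} (b : ℕ → ℕ → ℕ) {i k : ℕ} (hi : i < k) (hk : k < N) (hb : b i k ≠ 0) :
    ht N (mvr b i k) = ht N b + 1 := by
  unfold mvr
  rw [ht_inc _ (by omega) (by omega)]
  have := ht_upd (N := N) b (show i ≤ N by omega) (show k ≤ N by omega) (b i k - 1)
  obtain ⟨c, hc⟩ := Nat.exists_eq_succ_of_ne_zero hb
  rw [hc, Nat.succ_eq_add_one, Nat.add_sub_cancel, add_mul, one_mul] at this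
  rw [hc, Nat.succ_eq_add_one, Nat.add_sub_cancel]
  omega

theorem isEx_inc {N l : ℕ} {b : ℕ → ℕ → ℕ} (hb : IsEx N l b) {i j : ℕ} (hij : i < j) (hj : j ≤ N) :
    IsEx N l (inc b i j) ∨ l ≤ inc b i j i j := by
  by_cases h : l ≤ inc b i j i j
  · exact Or.inr h
  · left
    intro i' j'
    by_cases h' : i' = i ∧ j' = j
    · obtain ⟨rfl, rfl⟩ := h'
      exact ⟨fun _ ↦ by omega, fun h' ↦ absurd ⟨hij, hj⟩ h'⟩
    · have e : inc b i j i' j' = b i' j' := by unfold inc upd; rw [if_neg h']
      rw [e]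
      exact hb i' j'

theorem isEx_mvr {N l : ℕ} {b : ℕ → ℕ → ℕ} (hb : IsEx N l b) {i k : ℕ} (hi : i < k) (hk : k < N) :
    IsEx N l (mvr b i k) ∨ l ≤ mvr b i k i (k + 1) := by
  refine isEx_inc ?_ (by omega) (by omega)
  intro i' j'
  by_cases h' : i' = i ∧ j' = k
  · obtain ⟨rfl, rfl⟩ := h'
    have e : upd b i' j' (b i' j' - 1) i' j' = b i' j' - 1 := by simp [upd]
    rw [e]
    have h1 := hb i' j'
    refine ⟨fun h ↦ ?_, fun h ↦ ?_⟩
    · have := h1.1 h; omega
    · have := h1.2 h; omega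
  · have e : upd b i k (b i k - 1) i' j' = b i' j' := by unfold upd; rw [if_neg h']
    rw [e]
    exact hb i' j'

end basic

end Pool.Agent.Helper17.SQ
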