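import Pool.Agent.Helper17.SQ.PBWI0

/-!
# Project SQ (MP_bb32d1_al), packet PBWI: weights and the tensor product
-/

set_option autoImplicit false

namespace Pool.Agent.Helper17.SQ

open Pool.Agent.Helper19.SQ
open scoped TensorProduct

theorem ht_eq (N : ℕ) (b : ℕ → ℕ → ℕ) :
    ∑ i ∈ Finset.range N, ∑ d ∈ Finset.range (N - i),
      b i (i + 1 + d) • ∑ _k ∈ Finset.range (d + 1), (1 : ℕ) = ht N b := by
  unfold ht
  rw [Finset.sum_range_succ]
  have h0 : ∑ j ∈ Finset.range (N + 1), b N j * (j - N) = 0 := by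
    refine Finset.sum_eq_zero fun j hj ↦ ?_
    rw [Finset.mem_range] at hj
    have : j - N = 0 := by omega
    rw [this, mul_zero]
  rw [h0, add_zero]
  refine Finset.sum_congr rfl fun i hi ↦ ?_
  rw [Finset.mem_range] at hi
  rw [Finset.range_eq_Ico (a := N + 1), ← Finset.sum_Ico_consecutive _ (Nat.zero_le (i + 1))
    (by omega : i + 1 ≤ N + 1)]
  have h1 : ∑ j ∈ Finset.Ico 0 (i + 1), b i j * (j - i) = 0 := by
    refine Finset.sum_eq_zero fun j hj ↦ ?_
    rw [Finset.mem_Ico] at hj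
    have : j - i = 0 := by omega
    rw [this, mul_zero]
  rw [h1, zero_add, Finset.sum_Ico_eq_sum_range]
  have e : N + 1 - (i + 1) = N - i := by omega
  rw [e]
  refine Finset.sum_congr rfl fun d _ ↦ ?_
  have e2 : i + 1 + d - i = d + 1 := by omega
  rw [e2]
  simp

section weights

variable {N l : ℕ} {q : ℂ}

theorem q_ne (P : Par N l q) : q ≠ 0 := P.prim.ne_zero (by have := P.h3; omega)

theorem qz_int (P : Par N l q) [NeZero l] (n : ℤ) : q ^ n = qz q (n : ZMod l) := by
  have h1 : (q ^ (l : ℤ)) = 1 := by rw [zpow_natCast]; exact P.prim.pow_eq_one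
  unfold qz
  have h2 : ((((n : ZMod l).val : ℕ) : ℤ) : ZMod l) = (n : ZMod l) := by
    rw [Int.cast_natCast, ZMod.natCast_zmod_val]
  rw [ZMod.intCast_eq_intCast_iff] at h2
  obtain ⟨c, hc⟩ := h2.dvd
  rw [← zpow_natCast]
  have e : n = (((n : ZMod l).val : ℕ) : ℤ) + (l : ℤ) * c := by linarith
  conv_lhs => rw [e]
  rw [zpow_add₀ (q_ne P), zpow_mul, h1, one_zpow, mul_one]

theorem qz_add (P : Par N l q) [NeZero l] (a b : ZMod l) : qz q (a + b) = qz q a * qz q b := by
  have e1 := qz_int P (((a.val : ℕ) : ℤ) + ((b.val : ℕ) : ℤ))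
  rw [zpow_add₀ (q_ne P), zpow_natCast, zpow_natCast] at e1
  unfold qz at e1 ⊢
  rw [e1]
  congr 2
  push_cast
  rw [ZMod.natCast_zmod_val, ZMod.natCast_zmod_val]

/-- weight of an element of `A` -/
def WtA (N l : ℕ) (q : ℂ) (μ : ℕ → ℤ) (a : A N l q) : Prop :=
  ∀ j, gK N l q j * a = q ^ μ j • (a * gK N l q j)

theorem WtA.mul (P : Par N l q) {μ μ' : ℕ → ℤ} {a b : A N l q} (ha : WtA N l q μ a)
    (hb : WtA N l q μ' b) : WtA N l q (μ + μ') (a * b) := by
  intro j
  rw [← mul_assoc, ha, smul_mul_assoc, mul_assoc, hb, mul_smul_comm, smul_smul, Pi.add_apply,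
    zpow_add₀ (q_ne P), mul_assoc]

theorem WtA.exists_mon (P : Par N l q) (E : ℕ → A N l q) (f : ℕ → ℕ → ℤ)
    (hE : ∀ i, WtA N l q (f i) (E i)) (b : ℕ → ℕ → ℕ) : ∃ μ, WtA N l q μ (mon N q E b) :=
  ⟨_, mon_closed (W := ℕ → ℤ) (WtA N l q)
    (fun j ↦ by rw [Pi.zero_apply, zpow_zero, one_smul, mul_one, one_mul])
    (fun w w' a b ha hb ↦ WtA.mul P ha hb)
    (fun w a b ha hb j ↦ by rw [mul_sub, ha j, hb j, sub_mul, smul_sub])
    (fun w a c ha j ↦ by rw [mul_smul_comm, ha j, smul_mul_assoc, smul_comm]) f hE b⟩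

theorem exists_wtE (P : Par N l q) (b : ℕ → ℕ → ℕ) : ∃ μ, WtA N l q μ (mon N q (gE N l q) b) :=
  WtA.exists_mon P _ (fun i j ↦ pr j i) (fun i j ↦ (glA N l q).KE j i) b

theorem exists_wtF (P : Par N l q) (b : ℕ → ℕ → ℕ) : ∃ μ, WtA N l q μ (mon N q (gF N l q) b) :=
  WtA.exists_mon P _ (fun i j ↦ -pr j i) (fun i j ↦ (glA N l q).KF j i) b

variable {M : Type} [AddCommGroup M] [Module ℂ M] [Module (A N l q) M]
  [IsScalarTower ℂ (A N l q) M]

theorem smul_comm' (a : A N l q) (c : ℂ) (m : M) : a • (c • m) = c • (a • m) :=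
  (lsm a).map_smul c m

/-- weight vectors -/
def WtM (lam : Fin (N + 1) → ZMod l) (m : M) : Prop :=
  ∀ j : Fin (N + 1), gK N l q j • m = qz q (lam j) • m

theorem WtM.smul (P : Par N l q) [NeZero l] {lam : Fin (N + 1) → ZMod l} {m : M}
    (hm : WtM (q := q) lam m) {μ : ℕ → ℤ} {a : A N l q} (ha : WtA N l q μ a) :
    WtM (q := q) (fun j ↦ ((μ j : ℤ) : ZMod l) + lam j) (a • m) := by
  intro j
  rw [← mul_smul, ha j, smul_assoc, mul_smul, hm j, smul_comm', smul_smul, qz_int P, ← qz_add P]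

/-- the action of `kmon` -/
theorem kmon_smul {lam : Fin (N + 1) → ZMod l} {m : M} (hm : WtM (q := q) lam m)
    (κ : Fin (N + 1) → Fin l) :
    kmon N (gK N l q) (kx κ) • m = (∏ j : Fin (N + 1), qz q (lam j) ^ (κ j : ℕ)) • m := by
  have hpow : ∀ (j : Fin (N + 1)) (n : ℕ), gK N l q j ^ n • m = qz q (lam j) ^ n • m := by
    intro j n
    induction n with
    | zero => rw [pow_zero, pow_zero, one_smul, one_smul]
    | succ n ih => rw [pow_succ, mul_smul, hm j, smul_comm', ih, smul_smul, pow_succ, mul_comm]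
  have key : ∀ (n : ℕ) (_ : n ≤ N + 1), ((List.range n).map fun j => gK N l q j ^ kx κ j).prod • m
      = (∏ j ∈ Finset.range n, (if h : j < N + 1 then qz q (lam ⟨j, h⟩) ^ (κ ⟨j, h⟩ : ℕ) else 1)) •
        m := by
    intro n
    induction n with
    | zero => intro _; simp
    | succ n ih =>
      intro hn
      rw [List.range_succ, List.map_append, List.prod_append, Finset.prod_range_succ]
      simp only [List.map_cons, List.map_nil, List.prod_cons, List.prod_nil, mul_one]
      rw [mul_smul]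
      have h1 := hpow ⟨n, by omega⟩ (kx κ n)
      simp only at h1
      rw [h1, smul_comm', ih (by omega), smul_smul, dif_pos (by omega : n < N + 1), mul_comm]
      congr 2
      unfold kx
      rw [dif_pos (by omega : n < N + 1)]
  unfold kmon
  rw [key (N + 1) le_rfl, Finset.prod_range]
  congr 1
  refine Finset.prod_congr rfl fun j _ ↦ ?_
  rw [dif_pos j.2]

end weights

section four

variable {N l : ℕ} {q : ℂ}

/-- Fourier inversion on `(Z/l)^{N+1}` -/
theorem fourier (P : Par N l q) [NeZero l] (f : (Fin (N + 1) → Fin l) → ℂ)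
    (hf : ∀ ν : Fin (N + 1) → ZMod l,
      ∑ κ, f κ * ∏ j : Fin (N + 1), qz q (ν j) ^ (κ j : ℕ) = 0) : ∀ κ, f κ = 0 := by
  classical
  have hz : ∀ n : ℕ, qz q (0 : ZMod l) ^ n = 1 := by
    intro n
    unfold qz
    rw [ZMod.val_zero, pow_zero, one_pow]
  let χ : (Fin (N + 1) → Fin l) → (Multiplicative (Fin (N + 1) → ZMod l) →* ℂ) := fun κ ↦
    { toFun := fun ν ↦ ∏ j : Fin (N + 1), qz q (ν.toAdd j) ^ (κ j : ℕ)
      map_one' := by
        refine Finset.prod_eq_one fun j _ ↦ ?_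
        exact hz _
      map_mul' := fun ν ν' ↦ by
        rw [← Finset.prod_mul_distrib]
        refine Finset.prod_congr rfl fun j _ ↦ ?_
        rw [toAdd_mul, Pi.add_apply, qz_add P, mul_pow] }
  have hinj : Function.Injective χ := by
    intro κ κ' h
    funext j
    have h1 := DFunLike.congr_fun h (Multiplicative.ofAdd (Pi.single j (1 : ZMod l)))
    have h2 : ∀ κ'' : Fin (N + 1) → Fin l,
        χ κ'' (Multiplicative.ofAdd (Pi.single j (1 : ZMod l))) = q ^ (κ'' j : ℕ) := by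
      intro κ''
      change ∏ j' : Fin (N + 1), qz q ((Pi.single j (1 : ZMod l) : Fin (N + 1) → ZMod l) j') ^
        (κ'' j' : ℕ) = _
      rw [Finset.prod_eq_single j]
      · rw [Pi.single_eq_same]
        unfold qz
        have : Fact (1 < l) := ⟨by have := P.h3; omega⟩
        rw [ZMod.val_one, pow_one]
      · intro j' _ hj'
        rw [Pi.single_eq_of_ne hj', hz]
      · intro h; exact absurd (Finset.mem_univ _) h
    rw [h2, h2] at h1
    exact Fin.ext (P.prim.pow_inj (κ j).2 (κ' j).2 h1)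
  have hli := (linearIndependent_monoidHom (Multiplicative (Fin (N + 1) → ZMod l)) ℂ).comp χ hinj
  rw [Fintype.linearIndependent_iff] at hli
  refine hli f ?_
  funext ν
  rw [Finset.sum_apply]
  exact hf ν.toAdd

end four

end Pool.Agent.Helper17.SQ
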