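import Pool.Agent.Helper17.SQ.PBWI1

/-!
# Project SQ (MP_bb32d1_al), packet PBWI: the filtration
-/

set_option autoImplicit false
set_option linter.unusedSectionVars false

namespace Pool.Agent.Helper17.SQ

open Pool.Agent.Helper19.SQ
open scoped TensorProduct

variable {N l : ℕ} {q : ℂ}

section filt

variable {M : Type} [AddCommGroup M] [Module ℂ M] [Module (A N l q) M]
  [IsScalarTower ℂ (A N l q) M]

/-- the filtration by height -/
def Zf (N l : ℕ) (q : ℂ) {M : Type} [AddCommGroup M] [Module ℂ M] [Module (A N l q) M] (v : M)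
    (h : ℕ) : Submodule ℂ M :=
  Submodule.span ℂ {z | ∃ a : EX N l, ht N a.1 < h ∧ z = mon N q (gF N l q) a.1 • v}

theorem Zf_mono (v : M) {h h' : ℕ} (hh : h ≤ h') : Zf N l q v h ≤ Zf N l q v h' := by
  refine Submodule.span_mono ?_
  rintro z ⟨a, ha, hz⟩
  exact ⟨a, by omega, hz⟩

theorem K_Zf (P : Par N l q) [NeZero l] {lam : Fin (N + 1) → ZMod l} {v : M}
    (hv : WtM (q := q) lam v) (j : ℕ) {h : ℕ} {z : M} (hz : z ∈ Zf N l q v h) :
    gK N l q j • z ∈ Zf N l q v h := by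
  have : Zf N l q v h ≤ (Zf N l q v h).comap
      (lsm (gK N l q j)) := by
    refine Submodule.span_le.2 ?_
    rintro z ⟨a, ha, rfl⟩
    change gK N l q j • (mon N q (gF N l q) a.1 • v) ∈ Zf N l q v h
    obtain ⟨μ, hμ⟩ := exists_wtF P a.1
    have hs : ∃ s : ℂ, gK N l q j • v = s • v := by
      by_cases hj : j < N + 1
      · exact ⟨_, hv ⟨j, hj⟩⟩
      · exact ⟨1, by rw [(glA N l q).K_out j (by omega), one_smul, one_smul]⟩
    obtain ⟨s, hs⟩ := hs
    rw [← mul_smul, hμ j, smul_assoc, mul_smul, hs, smul_comm']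
    exact Submodule.smul_mem _ _ (Submodule.smul_mem _ _ (Submodule.subset_span ⟨a, ha, rfl⟩))
  exact this hz

theorem F_Zf (P : Par N l q) (hLM : S_LM) {v : M} (k : ℕ) {h : ℕ} {z : M}
    (hz : z ∈ Zf N l q v h) :
    gF N l q k • z ∈ Zf N l q v (h + 1) := by
  have hq0 := q_ne P
  have hq1 : q ^ 2 ≠ 1 := by
    intro h
    have := P.prim.dvd_of_pow_eq_one 2 h
    have := Nat.le_of_dvd (by norm_num) this
    have := P.h3
    omega
  have hq2 : q ^ 2 ≠ -1 := by
    intro h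
    have h4 : q ^ 4 = 1 := by
      have : q ^ 4 = (q ^ 2) ^ 2 := by ring
      rw [this, h]; norm_num
    have := P.prim.dvd_of_pow_eq_one 4 h4
    have h5 := P.h3
    have h6 := Nat.le_of_dvd (by norm_num) this
    obtain ⟨c, hc⟩ := P.odd
    interval_cases l <;> omega
  by_cases hk : k < N
  swap
  · rw [(glA N l q).F_out k (by omega), zero_smul]
    exact zero_mem _
  have : Zf N l q v h ≤ (Zf N l q v (h + 1)).comap
      (lsm (gF N l q k)) := by
    refine Submodule.span_le.2 ?_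
    rintro z ⟨a, ha, rfl⟩
    change gF N l q k • (mon N q (gF N l q) a.1 • v) ∈ Zf N l q v (h + 1)
    rw [← mul_smul, hLM _ N q (gF N l q) hq0 hq1 hq2 (glA N l q).sF a.1 k hk, add_smul,
      Finset.sum_smul]
    refine add_mem (Submodule.sum_mem _ fun i hi ↦ ?_) ?_
    · rw [Finset.mem_range] at hi
      rw [smul_assoc]
      by_cases ha0 : a.1 i k = 0
      · have : qn q (a.1 i k) = 0 := by
          rw [ha0]; unfold qn; simp
        rw [this, mul_zero, mul_zero, zero_smul]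
        exact zero_mem _
      · refine Submodule.smul_mem _ _ ?_
        rcases isEx_mvr a.2 hi hk with h1 | h1
        · exact Submodule.subset_span ⟨⟨_, h1⟩, by
            change ht N (mvr a.1 i k) < h + 1
            rw [ht_mvr a.1 hi hk ha0]; omega, rfl⟩
        · rw [mon_of_le (glA N l q).pF (by omega : i < k + 1) (by omega) h1, zero_smul]
          exact zero_mem _
    · rw [smul_assoc]
      refine Submodule.smul_mem _ _ ?_
      rcases isEx_inc a.2 (by omega : k < k + 1) (by omega) with h1 | h1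
      · exact Submodule.subset_span ⟨⟨_, h1⟩, by
          change ht N (inc a.1 k (k + 1)) < h + 1
          rw [ht_inc a.1 (by omega) (by omega)]; omega, rfl⟩
      · rw [mon_of_le (glA N l q).pF (by omega : k < k + 1) (by omega) h1, zero_smul]
        exact zero_mem _
  exact this hz

variable {M1 : Type} [AddCommGroup M1] [Module ℂ M1] [Module (A N l q) M1]
  [IsScalarTower ℂ (A N l q) M1]

/-- the filtration of the tensor product -/
def Uf (N l : ℕ) (q : ℂ) (M1 : Type) [AddCommGroup M1] [Module ℂ M1] {M : Type} [AddCommGroup M]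
    [Module ℂ M] [Module (A N l q) M] (v : M) (h : ℕ) : Submodule ℂ (M1 ⊗[ℂ] M) :=
  Submodule.span ℂ {w | ∃ (x : M1), ∃ z ∈ Zf N l q v h, w = x ⊗ₜ[ℂ] z}

theorem Uf_mono (v : M) {h h' : ℕ} (hh : h ≤ h') :
    Uf N l q M1 v h ≤ Uf N l q M1 v h' := by
  refine Submodule.span_mono ?_
  rintro w ⟨x, z, hz, hw⟩
  exact ⟨x, z, Zf_mono v hh hz, hw⟩

/-- elements of order `n` -/
def Ord (ρ : A N l q →ₐ[ℂ] Module.End ℂ (M1 ⊗[ℂ] M)) (v : M) (n : ℕ) (a : A N l q) : Prop :=
  (∀ h z, z ∈ Zf N l q v h → a • z ∈ Zf N l q v (h + n)) ∧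
  ∀ (h : ℕ) (x : M1) (z : M), z ∈ Zf N l q v (h + 1) →
    ρ a (x ⊗ₜ z) - x ⊗ₜ (a • z) ∈ Uf N l q M1 v (h + n)

variable {ρ : A N l q →ₐ[ℂ] Module.End ℂ (M1 ⊗[ℂ] M)} {v : M}

theorem Ord.map_Uf {n : ℕ} {a : A N l q} (ha : Ord ρ v n a) {h : ℕ} {w : M1 ⊗[ℂ] M}
    (hw : w ∈ Uf N l q M1 v h) :
    ρ a w ∈ Uf N l q M1 v (h + n) := by
  have : Uf N l q M1 v h ≤
      (Uf N l q M1 v (h + n)).comap (ρ a) := by
    refine Submodule.span_le.2 ?_
    rintro w ⟨x, z, hz, rfl⟩
    change ρ a (x ⊗ₜ[ℂ] z) ∈ Uf N l q M1 v (h + n)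
    rcases Nat.eq_zero_or_pos h with rfl | hpos
    · have hz0 : z = 0 := by
        have e : Zf N l q v 0 = ⊥ := by
          unfold Zf
          rw [Submodule.span_eq_bot]
          rintro z ⟨a, ha, -⟩
          omega
        rw [e] at hz
        exact (Submodule.mem_bot ℂ).1 hz
      rw [hz0, TensorProduct.tmul_zero, map_zero]
      exact zero_mem _
    · obtain ⟨h', rfl⟩ := Nat.exists_eq_succ_of_ne_zero (by omega : h ≠ 0)
      have h1 := ha.2 h' x z hz
      have h2 : x ⊗ₜ[ℂ] (a • z) ∈ Uf N l q M1 v (h'.succ + n) :=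
        Submodule.subset_span ⟨x, _, ha.1 _ z hz, rfl⟩
      have h3 := add_mem (Uf_mono (N := N) (l := l) (q := q) (M1 := M1) v (by omega : h' + n ≤ h'.succ + n) h1) h2
      rwa [sub_add_cancel] at h3
  exact this hw

theorem Ord.one : Ord ρ v 0 1 := by
  refine ⟨fun h z hz ↦ by rw [one_smul]; exact hz, fun h x z hz ↦ ?_⟩
  rw [map_one, one_smul, Module.End.one_apply, sub_self]
  exact zero_mem _

theorem Ord.mul {n m : ℕ} {a b : A N l q} (ha : Ord ρ v n a) (hb : Ord ρ v m b) :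
    Ord ρ v (n + m) (a * b) := by
  have e : ∀ h, h + (n + m) = h + m + n := fun h ↦ by ring
  refine ⟨fun h z hz ↦ ?_, fun h x z hz ↦ ?_⟩
  · rw [mul_smul, e]
    exact ha.1 _ _ (hb.1 _ _ hz)
  · have h1 := ha.map_Uf (hb.2 h x z hz)
    have h2 : b • z ∈ Zf N l q v (h + m + 1) := by
      have := hb.1 _ _ hz
      rwa [show h + m + 1 = h + 1 + m by ring]
    have h3 := ha.2 (h + m) x (b • z) h2
    have h4 := add_mem h1 h3
    rw [map_sub] at h4
    rw [map_mul, Module.End.mul_apply, e, mul_smul]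
    rwa [sub_add_sub_cancel] at h4

theorem Ord.smul {n : ℕ} {a : A N l q} (c : ℂ) (ha : Ord ρ v n a) : Ord ρ v n (c • a) := by
  refine ⟨fun h z hz ↦ ?_, fun h x z hz ↦ ?_⟩
  · rw [smul_assoc]
    exact Submodule.smul_mem _ _ (ha.1 h z hz)
  · rw [map_smul, LinearMap.smul_apply, smul_assoc, TensorProduct.tmul_smul, ← smul_sub]
    exact Submodule.smul_mem _ _ (ha.2 h x z hz)

theorem Ord.sub {n : ℕ} {a b : A N l q} (ha : Ord ρ v n a) (hb : Ord ρ v n b) :
    Ord ρ v n (a - b) := by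
  refine ⟨fun h z hz ↦ ?_, fun h x z hz ↦ ?_⟩
  · rw [sub_smul]
    exact sub_mem (ha.1 h z hz) (hb.1 h z hz)
  · have := sub_mem (ha.2 h x z hz) (hb.2 h x z hz)
    rw [map_sub, LinearMap.sub_apply, sub_smul, TensorProduct.tmul_sub]
    convert this using 1
    abel

theorem Ord.mon (P : Par N l q) [NeZero l] (hLM : S_LM) {lam : Fin (N + 1) → ZMod l}
    (hv : WtM (q := q) lam v)
    (hF : ∀ (x : M1) (y : M) (i : ℕ), ρ (gF N l q i) (x ⊗ₜ y) = (gF N l q i • x) ⊗ₜ
          ((gK N l q (i + 1) * gK N l q i ^ (l - 1)) • y) + x ⊗ₜ (gF N l q i • y))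
    (a : ℕ → ℕ → ℕ) : Ord ρ v (ht N a) (mon N q (gF N l q) a) := by
  have := mon_closed (W := ℕ) (N := N) (q := q) (E := gF N l q) (Ord ρ v) Ord.one
    (fun w w' a b ha hb ↦ ha.mul hb) (fun w a b ha hb ↦ ha.sub hb) (fun w a c ha ↦ ha.smul c)
    (fun _ ↦ 1) (fun i ↦ ⟨fun h z hz ↦ F_Zf P hLM i hz, fun h x z hz ↦ ?_⟩) a
  · rwa [ht_eq] at this
  · rw [hF, add_sub_cancel_right]
    refine Submodule.subset_span ⟨_, _, ?_, rfl⟩
    have hpow : ∀ n : ℕ, gK N l q i ^ n • z ∈ Zf N l q v (h + 1) := by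
      intro n
      induction n with
      | zero => rw [pow_zero, one_smul]; exact hz
      | succ n ih => rw [pow_succ', mul_smul]; exact K_Zf P hv i ih
    rw [mul_smul]
    exact K_Zf P hv _ (hpow _)

end filt

end Pool.Agent.Helper17.SQ
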